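import Pool.Agent.Results.MP_2e37b9_an.DenseBaireSubspace
import Pool.Agent.Y958.BF.Fam

/-!
# A continuum of independent dense Baire subspaces of non-extendable functions in `A^∞(G)`

The definitions of `AInfty G`, its topology, `IsRegularDomain` and `NonExtendable` are those of the starting file
`DenseBaireSubspace`, whose theorem (the answer to Q1) is contained in the theorem below.
-/

set_option autoImplicit false

open Set Topology Filter TopologicalSpace

namespace Pool.Agent.Results.MP_2e37b9_an.IndependentBaireSubspaces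

open Pool.Agent.H586R3
open Pool.Agent.Results.MP_2e37b9_an.DenseBaireSubspace

variable {G : Opens ℂ}

/-- The formal Taylor series `∑ (L_j / j!) (z - ζ) ^ j` of `f` at the boundary point `ζ`, where `L_j` is the limit of the
`j`-th derivative of `f` at `ζ` from inside of `G`, has the radius of convergence `0`. -/
def TaylorDiverges (G : Opens ℂ) (f : ℂ → ℂ) (ζ : ℂ) : Prop :=
  ∀ C : ℝ, ∃ (j : ℕ) (L : ℂ), Tendsto (iteratedDeriv j f) (𝓝[(G : Set ℂ)] ζ) (𝓝 L) ∧ C ^ j * (j.factorial : ℝ) < ‖L‖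

lemma residual_preimage {X X' : Type} [TopologicalSpace X] [TopologicalSpace X'] [BaireSpace X] [BaireSpace X'] (h : X ≃ₜ X') (R : Set X')
    (hR : R ∈ residual X') : h ⁻¹' R ∈ residual X := by
  rw [mem_residual] at hR ⊢
  obtain ⟨t, ht, htG, htd⟩ := hR
  exact ⟨h ⁻¹' t, preimage_mono ht, htG.preimage h.continuous, htd.preimage h.isOpenMap⟩

/-- the family of jets -/
theorem exists_jets_family {G : Set ℂ} (hG : IsOpen G) (hne : G.Nonempty) (Z : Set ℂ) (hZ : Z.Countable)
    (hZG : Z ⊆ closure G) (hZe : ∀ ζ ∈ Z, ∀ ε : ℝ, 0 < ε → ∃ b, b ∉ closure G ∧ ‖ζ - b‖ < ε)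
    (R : Set (JetSp G)) (hR : R ∈ residual (JetSp G)) :
    ∃ B : ℝ → Set (JetSp G), (∀ t, B t ⊆ R) ∧ iSupIndep (fun t => Submodule.span ℂ (B t)) ∧
      (∀ V : Submodule ℂ (JetSp G), (∃ t, B t ⊆ V) → Dense (V : Set (JetSp G)) ∧ BaireSpace V) ∧
      (∀ e ∈ Submodule.span ℂ (⋃ t, B t), e ≠ 0 → ∀ (ζ : ℂ) (hζ : ζ ∈ Z), e ∉ Yc ⟨ζ, hZG hζ⟩) := by
  have hBaire := baire_JetSp hG
  have : Countable Z := hZ.to_subtype
  set Y : Option Z → Submodule ℂ (JetSp G) := fun o => match o with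
    | none => ⊥
    | some ζ => Yc ⟨ζ.1, hZG ζ.2⟩ with hY
  obtain ⟨B, hB1, hB2, hB3, hB4⟩ := Pool.Agent.Y958.BF.exists_baire_family (mE hG) (continuous_mE hG) (continuous_mE' hG)
    (mE_zero hG) (mE_add hG) Y (by
      intro o
      match o with
      | none => exact isMeagre_bot hG hne
      | some ζ => exact isMeagre_Yc hG _ (hZe ζ.1 ζ.2)) (by
      intro o g hg
      match o with
      | none => exact linInd_bot hG g hg
      | some ζ => exact linInd_Yc hG _ g hg) R hR
  exact ⟨B, hB1, hB2, hB3, fun e he hne0 ζ hζ hmem => hne0 (hB4 (some ⟨ζ, hζ⟩) e he hmem)⟩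

/-- divergence of the Taylor series in terms of jets -/
lemma taylor_of {ζ : ℂ} (hζ : ζ ∈ closure (G : Set ℂ)) (g : JetSp (G : Set ℂ)) (h : g ∉ Yc ⟨ζ, hζ⟩) :
    TaylorDiverges G (fnOf g) ζ := by
  intro C
  obtain ⟨S, hS⟩ := exists_nat_ge (max |C| 1)
  have h1 : ¬ ∀ j : ℕ, ‖evL j ⟨ζ, hζ⟩ g‖ ≤ (S : ℝ) ^ (j + 1) * (j.factorial : ℝ) := fun hall => h ⟨S, hall⟩
  push Not at h1
  obtain ⟨j, hj⟩ := h1
  refine ⟨j, evL j ⟨ζ, hζ⟩ g, ?_, lt_of_le_of_lt ?_ hj⟩
  · rw [evL_eq_ext]
    have ht : Tendsto (ext (g.seq j)) (𝓝[(G : Set ℂ)] ζ) (𝓝 (ext (g.seq j) ζ)) :=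
      ((continuousOn_ext (g.seq j)) ζ hζ).mono_left (nhdsWithin_mono _ subset_closure)
    refine ht.congr' ?_
    filter_upwards [self_mem_nhdsWithin] with w hw
    exact (iteratedDeriv_fnOf g j hw).symm
  · apply mul_le_mul_of_nonneg_right _ (Nat.cast_nonneg _)
    have hS1 : (1 : ℝ) ≤ S := (le_max_right _ _).trans hS
    calc C ^ j ≤ |C ^ j| := le_abs_self _
      _ = |C| ^ j := abs_pow _ _
      _ ≤ (S : ℝ) ^ j := pow_le_pow_left₀ (abs_nonneg _) ((le_max_left _ _).trans hS) j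
      _ ≤ (S : ℝ) ^ (j + 1) := pow_le_pow_right₀ hS1 (Nat.le_succ j)

/-- `f` is holomorphic exactly on `G`: it is holomorphic on `G`, and for `a` in `G` and a ball `B(a, r)` which is not
contained in `G`, no holomorphic function on `B(a, r)` agrees with `f` near `a`. -/
def HolomorphicExactlyOn (G : Opens ℂ) (f : ℂ → ℂ) : Prop :=
  DifferentiableOn ℂ f G ∧ ∀ a ∈ G, ∀ r : ℝ, ¬ Metric.ball a r ⊆ (G : Set ℂ) →
    ¬ ∃ F : ℂ → ℂ, DifferentiableOn ℂ F (Metric.ball a r) ∧ F =ᶠ[𝓝 a] f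

/-- the Taylor coefficients at a boundary point which is reached from an open subset `C` of `G` on which the function
extends holomorphically beyond the point -/
lemma mem_Yc_of (g : JetSp (G : Set ℂ)) {ζ : ℂ} (hζ : ζ ∈ closure (G : Set ℂ)) {U C : Set ℂ} (hU : IsOpen U) (hζU : ζ ∈ U)
    (hC : IsOpen C) (hCG : C ⊆ (G : Set ℂ)) (hζC : ζ ∈ closure C) {F : ℂ → ℂ} (hF : DifferentiableOn ℂ F U)
    (hFf : ∀ z ∈ C, F z = fnOf g z) : g ∈ Yc ⟨ζ, hζ⟩ := by
  obtain ⟨ρ, hρ, hball⟩ := Metric.isOpen_iff.1 hU ζ hζU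
  set r : ℝ := ρ / 2 with hr
  have hr0 : 0 < r := by positivity
  have hsub : Metric.closedBall ζ r ⊆ U :=
    (Metric.closedBall_subset_ball (by rw [hr]; linarith)).trans hball
  obtain ⟨M, hM⟩ := (isCompact_closedBall ζ r).exists_bound_of_continuousOn
    (hF.continuousOn.mono hsub)
  have hd : DiffContOnCl ℂ F (Metric.ball ζ r) := hF.diffContOnCl_ball hsub
  have hval : ∀ j : ℕ, evL j ⟨ζ, hζ⟩ g = iteratedDeriv j F ζ := by
    intro j
    rw [evL_eq_ext]
    have hne' : (𝓝[C] ζ).NeBot := mem_closure_iff_nhdsWithin_neBot.1 hζC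
    have ht1 : Tendsto (ext (g.seq j)) (𝓝[C] ζ) (𝓝 (ext (g.seq j) ζ)) :=
      ((continuousOn_ext (g.seq j)) ζ hζ).mono_left (nhdsWithin_mono _ (hCG.trans subset_closure))
    have ht2 : Tendsto (iteratedDeriv j F) (𝓝[C] ζ) (𝓝 (iteratedDeriv j F ζ)) := by
      have h1 := (differentiableOn_iteratedDeriv hU hF j).differentiableAt (hU.mem_nhds hζU)
      exact h1.continuousAt.tendsto.mono_left nhdsWithin_le_nhds
    refine tendsto_nhds_unique_of_eventuallyEq ht1 ht2 ?_
    filter_upwards [self_mem_nhdsWithin] with w hw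
    rw [← iteratedDeriv_fnOf g j (hCG hw)]
    apply Filter.EventuallyEq.iteratedDeriv_eq
    filter_upwards [hC.mem_nhds hw] with v hv using (hFf v hv).symm
  obtain ⟨S, hS⟩ := exists_nat_ge (max M (1 / r))
  refine ⟨S, fun j => ?_⟩
  rw [hval j]
  have h1 := Complex.norm_iteratedDeriv_le_of_forall_mem_sphere_norm_le j hr0 hd
    (fun z hz => hM z (Metric.sphere_subset_closedBall hz))
  refine h1.trans ?_
  have hfac : (0 : ℝ) ≤ (j.factorial : ℝ) := Nat.cast_nonneg _
  have hM0 : 0 ≤ M := (norm_nonneg _).trans (hM ζ (Metric.mem_closedBall_self hr0.le))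
  have hS1 : M ≤ S := (le_max_left _ _).trans hS
  have hS2 : 1 / r ≤ S := (le_max_right _ _).trans hS
  calc (j.factorial : ℝ) * M / r ^ j = (M * (1 / r) ^ j) * (j.factorial : ℝ) := by
        rw [one_div, inv_pow]; field_simp
    _ ≤ ((S : ℝ) * (S : ℝ) ^ j) * (j.factorial : ℝ) := by
        apply mul_le_mul_of_nonneg_right _ hfac
        exact mul_le_mul hS1 (pow_le_pow_left₀ (by positivity) hS2 j) (by positivity)
          (Nat.cast_nonneg _)
    _ = (S : ℝ) ^ (j + 1) * (j.factorial : ℝ) := by rw [pow_succ']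

/-- a countable set which meets all non-empty sets of a countable family -/
lemma countable_selection {I : Type} [Countable I] (S : I → Set ℂ) :
    ∃ W : Set ℂ, W.Countable ∧ W ⊆ ⋃ i, S i ∧ ∀ i, (S i).Nonempty → (S i ∩ W).Nonempty := by
  refine ⟨⋃ i, range (fun h : (S i).Nonempty => h.some), countable_iUnion fun i => countable_range _, ?_, ?_⟩
  · apply iUnion_mono
    rintro i _ ⟨h, rfl⟩
    exact h.some_mem
  · intro i h
    exact ⟨h.some, h.some_mem, mem_iUnion.2 ⟨i, ⟨h, rfl⟩⟩⟩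

/-- a countable set of boundary points which are seen from all the points of `G` in all balls -/
lemma exists_seen (G : Opens ℂ) : ∃ W : Set ℂ, W.Countable ∧ W ⊆ frontier (G : Set ℂ) ∧
    ∀ a ∈ G, ∀ r : ℝ, ¬ Metric.ball a r ⊆ (G : Set ℂ) → ∃ (C U : Set ℂ) (ζ : ℂ), ζ ∈ W ∧ IsOpen C ∧ IsPreconnected C ∧ a ∈ C ∧
      C ⊆ (G : Set ℂ) ∧ IsOpen U ∧ U ⊆ Metric.ball a r ∧ C ⊆ U ∧ ζ ∈ U ∧ ζ ∈ closure C := by
  obtain ⟨D, hD, hDd⟩ := TopologicalSpace.exists_countable_dense ℂ
  have hDc : Countable D := hD.to_subtype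
  set K : D × ℚ × D → Set ℂ := fun i => connectedComponentIn (Metric.ball (i.1 : ℂ) ((i.2.1 : ℚ) : ℝ) ∩ (G : Set ℂ)) (i.2.2 : ℂ) with hK
  set S : D × ℚ × D → Set ℂ := fun i => (closure (K i) ∩ Metric.ball (i.1 : ℂ) ((i.2.1 : ℚ) : ℝ)) \ (G : Set ℂ) with hS
  obtain ⟨W, hW1, hW2, hW3⟩ := countable_selection S
  have hKG : ∀ i, K i ⊆ (G : Set ℂ) := fun i => (connectedComponentIn_subset _ _).trans inter_subset_right
  refine ⟨W, hW1, ?_, ?_⟩
  · intro ζ hζ
    obtain ⟨i, ⟨h1, _⟩, h2⟩ := mem_iUnion.1 (hW2 hζ)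
    rw [G.isOpen.frontier_eq]
    exact ⟨closure_mono (hKG i) h1, h2⟩
  · intro a ha r hr
    rw [not_subset] at hr
    obtain ⟨x, hx, hxG⟩ := hr
    rw [Metric.mem_ball] at hx
    set d : ℝ := dist x a with hd
    have hd0 : 0 ≤ d := dist_nonneg
    set δ : ℝ := (r - d) / 3 with hδ
    have hδ0 : 0 < δ := by rw [hδ]; linarith
    obtain ⟨c, hcD, hca⟩ := Metric.dense_iff.1 hDd a δ hδ0
    obtain ⟨ρ, hρ1, hρ2⟩ := exists_rat_btwn (show d + δ < r - δ by rw [hδ]; linarith)
    rw [Metric.mem_ball] at hcD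
    have hac : dist a c < δ := by rw [dist_comm]; exact hcD
    set B : Set ℂ := Metric.ball c (ρ : ℝ) with hB
    have haB : a ∈ B := by
      rw [hB, Metric.mem_ball]
      linarith
    have hxB : x ∈ B := by
      rw [hB, Metric.mem_ball]
      have := dist_triangle x a c
      linarith
    have hBr : B ⊆ Metric.ball a r := by
      intro z hz
      rw [hB, Metric.mem_ball] at hz
      rw [Metric.mem_ball]
      have := dist_triangle z c a
      linarith
    set C : Set ℂ := connectedComponentIn (B ∩ (G : Set ℂ)) a with hC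
    have hBGo : IsOpen (B ∩ (G : Set ℂ)) := Metric.isOpen_ball.inter G.isOpen
    have hCo : IsOpen C := hBGo.connectedComponentIn
    have haC : a ∈ C := mem_connectedComponentIn ⟨haB, ha⟩
    have hCs : C ⊆ B ∩ (G : Set ℂ) := connectedComponentIn_subset _ _
    obtain ⟨q, hqC, hqD⟩ := hDd.exists_mem_open hCo ⟨a, haC⟩ |>.imp fun q h => And.intro h.2 h.1
    have hCq : connectedComponentIn (B ∩ (G : Set ℂ)) q = C := (connectedComponentIn_eq hqC).symm
    have hcl : ((closure C ∩ B) \ (G : Set ℂ)).Nonempty := by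
      by_contra hcon
      rw [not_nonempty_iff_eq_empty, sdiff_eq_empty] at hcon
      -- the component is relatively closed
      have h1 : closure C ∩ B ⊆ C := by
        intro z hz
        have h2 : IsPreconnected (closure C ∩ B) := isPreconnected_connectedComponentIn.subset_closure
          (fun w hw => ⟨subset_closure hw, (hCs hw).1⟩) inter_subset_left
        have h5 : closure C ∩ B ⊆ B ∩ (G : Set ℂ) := fun w hw => ⟨hw.2, hcon hw⟩
        exact h2.subset_connectedComponentIn ⟨subset_closure haC, haB⟩ h5 hz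
      have h3 : IsPreconnected B := (convex_ball c (ρ : ℝ)).isPreconnected
      have h4 : B ⊆ C := by
        apply h3.subset_of_closure_inter_subset hCo ⟨a, haB, haC⟩
        exact h1
      exact hxG (hCs (h4 hxB)).2
    have hcl' : (S (⟨c, hca⟩, ρ, ⟨q, hqD⟩)).Nonempty := by
      show ((closure (connectedComponentIn (B ∩ (G : Set ℂ)) q) ∩ B) \ (G : Set ℂ)).Nonempty
      rw [hCq]
      exact hcl
    obtain ⟨ζ, hζS, hζW⟩ := hW3 _ hcl'
    have hζS' : ζ ∈ (closure (connectedComponentIn (B ∩ (G : Set ℂ)) q) ∩ B) \ (G : Set ℂ) := hζS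
    rw [hCq] at hζS'
    exact ⟨C, B, ζ, hζW, hCo, isPreconnected_connectedComponentIn, haC, fun w hw => (hCs hw).2, Metric.isOpen_ball, hBr,
      fun w hw => (hCs hw).1, hζS'.1.2, hζS'.1.1⟩

/-- **Full answer to Q1, in a stronger form.** Let `G` be a regular domain, let `Z` be an arbitrary countable set of boundary
points and let `R` be an arbitrary residual (comeagre) subset of `A^∞(G)`. There are vector subspaces `E t`, `t ∈ ℝ`, of
`A^∞(G)` such that

* the sum of all the `E t` is direct,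
* every `E t` is spanned by elements of `R`,
* every vector subspace `V` which contains one of the `E t` (in particular `E t` itself and the sum of any of the `E t`) is
  dense in `A^∞(G)` and a Baire space in the induced topology,
* every non-zero element of the sum of all the `E t` is non-extendable and even holomorphic exactly on `G`, and its Taylor
  series has the radius of convergence `0` at every point of `Z`. -/
theorem result (G : Opens ℂ) (hG : IsRegularDomain G) (Z : Set ℂ) (hZ : Z.Countable) (hZG : Z ⊆ frontier (G : Set ℂ))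
    (R : Set (AInfty G)) (hR : R ∈ residual (AInfty G)) :
    ∃ E : ℝ → Submodule ℂ (AInfty G), iSupIndep E ∧
      (∀ t, Submodule.span ℂ ((E t : Set (AInfty G)) ∩ R) = E t) ∧
      (∀ V : Submodule ℂ (AInfty G), (∃ t, E t ≤ V) → Dense (V : Set (AInfty G)) ∧ BaireSpace V) ∧
      (∀ f ∈ ⨆ t, E t, f ≠ 0 → NonExtendable G f.fn ∧ HolomorphicExactlyOn G f.fn ∧ ∀ ζ ∈ Z, TaylorDiverges G f.fn ζ) := by
  obtain ⟨s, hs, hsd⟩ := TopologicalSpace.exists_countable_dense ↥(frontier (G : Set ℂ))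
  obtain ⟨W, hW1, hW2, hW3⟩ := exists_seen G
  set Z' : Set ℂ := Subtype.val '' s ∪ (W ∪ Z) with hZdef
  have hZ' : Z'.Countable := (hs.image _).union (hW1.union hZ)
  have hZf : Z' ⊆ frontier (G : Set ℂ) := by
    rintro x (hx | hx | hx)
    · obtain ⟨y, _, rfl⟩ := hx
      exact y.2
    · exact hW2 hx
    · exact hZG hx
  have hZG' : Z' ⊆ closure (G : Set ℂ) := hZf.trans frontier_subset_closure
  have hZe : ∀ ζ ∈ Z', ∀ ε : ℝ, 0 < ε → ∃ b, b ∉ closure (G : Set ℂ) ∧ ‖ζ - b‖ < ε := by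
    intro ζ hζ ε hε
    by_contra hcon
    push Not at hcon
    have h1 : Metric.ball ζ ε ⊆ closure (G : Set ℂ) := by
      intro b hb
      by_contra hb2
      have := hcon b hb2
      rw [Metric.mem_ball, dist_comm, dist_eq_norm] at hb
      linarith
    have h2 : ζ ∈ interior (closure (G : Set ℂ)) :=
      mem_interior.2 ⟨Metric.ball ζ ε, h1, Metric.isOpen_ball, Metric.mem_ball_self hε⟩
    rw [← hG.2] at h2
    have h3 := hZf hζ
    rw [G.isOpen.frontier_eq] at h3
    exact h3.2 h2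
  have hZd : ∀ U : Set ℂ, IsOpen U → (U ∩ frontier (G : Set ℂ)).Nonempty → (U ∩ Z').Nonempty := by
    rintro U hU ⟨x, hxU, hxf⟩
    obtain ⟨y, hys, hyU⟩ := hsd.exists_mem_open (hU.preimage continuous_subtype_val)
      ⟨(⟨x, hxf⟩ : ↥(frontier (G : Set ℂ))), hxU⟩
    exact ⟨y.1, hyU, Or.inl ⟨y, hys, rfl⟩⟩
  have hBaire1 : BaireSpace (JetSp (G : Set ℂ)) := baire_JetSp G.isOpen
  have hBaire2 : BaireSpace (AInfty G) := (eH : JetSp (G : Set ℂ) ≃ₜ AInfty G).baireSpace
  obtain ⟨B, hB1, hB2, hB3, hB4⟩ := exists_jets_family G.isOpen hG.1.nonempty Z' hZ' hZG' hZe (eH ⁻¹' R)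
    (residual_preimage eH R hR)
  set e : JetSp (G : Set ℂ) ≃ₗ[ℂ] AInfty G := eE with he
  have heH : ∀ x, (eH : JetSp (G : Set ℂ) ≃ₜ AInfty G) x = e x := fun _ => rfl
  refine ⟨fun t => (Submodule.span ℂ (B t)).map e.toLinearMap, ?_, ?_, ?_, ?_⟩
  · have h1 := (iSupIndep_map_orderIso_iff (Submodule.orderIsoMapComap e) (a := fun t => Submodule.span ℂ (B t))).2 hB2
    exact h1
  · intro t
    apply le_antisymm
    · rw [Submodule.span_le]
      exact inter_subset_left
    · show (Submodule.span ℂ (B t)).map e.toLinearMap ≤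
        Submodule.span ℂ (((Submodule.span ℂ (B t)).map e.toLinearMap : Set (AInfty G)) ∩ R)
      rw [Submodule.map_span]
      apply Submodule.span_mono
      rintro _ ⟨x, hx, rfl⟩
      exact ⟨Submodule.subset_span ⟨x, hx, rfl⟩, hB1 t hx⟩
  · rintro V ⟨t, ht⟩
    obtain ⟨h1, h2⟩ := hB3 (V.comap e.toLinearMap) ⟨t, fun x hx => ht ⟨x, Submodule.subset_span hx, rfl⟩⟩
    have hV : (eH '' ((V.comap e.toLinearMap : Submodule ℂ (JetSp (G : Set ℂ))) : Set (JetSp (G : Set ℂ)))) = (V : Set (AInfty G)) := by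
      ext y
      constructor
      · rintro ⟨x, hx, rfl⟩
        exact hx
      · intro hy
        refine ⟨e.symm y, ?_, ?_⟩
        · show e (e.symm y) ∈ V
          rw [e.apply_symm_apply]
          exact hy
        · rw [heH, e.apply_symm_apply]
    constructor
    · have h3 : Dense (eH '' ((V.comap e.toLinearMap : Submodule ℂ (JetSp (G : Set ℂ))) : Set (JetSp (G : Set ℂ)))) :=
        eH.surjective.denseRange.dense_image eH.continuous h1
      rwa [hV] at h3
    · have h3 := eH.image ((V.comap e.toLinearMap : Submodule ℂ (JetSp (G : Set ℂ))) : Set (JetSp (G : Set ℂ)))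
      have h4 : BaireSpace (eH '' ((V.comap e.toLinearMap : Submodule ℂ (JetSp (G : Set ℂ))) : Set (JetSp (G : Set ℂ)))) := by
        have h5 : BaireSpace ((V.comap e.toLinearMap : Submodule ℂ (JetSp (G : Set ℂ))) : Set (JetSp (G : Set ℂ))) := h2
        exact h3.baireSpace
      rw [hV] at h4
      exact h4
  · intro f hf hf0
    have h1 : f ∈ (Submodule.span ℂ (⋃ t, B t)).map e.toLinearMap := by
      rw [← Submodule.map_iSup, ← Submodule.span_iUnion] at hf
      exact hf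
    obtain ⟨g, hg, rfl⟩ := h1
    have hg0 : g ≠ 0 := by
      rintro rfl
      exact hf0 (map_zero _)
    have hfn : (e.toLinearMap g).fn = fnOf g := eE_fn g
    rw [hfn]
    have hfd : DifferentiableOn ℂ (fnOf g) G := (Subtype.property (e.toLinearMap g)).2.1
    refine ⟨?_, ⟨hfd, ?_⟩, ?_⟩
    · by_contra hcon
      obtain ⟨ζ, hζ, hmem⟩ := extendable_aux hZG' hG.1.nonempty hZd g hcon
      exact hB4 g hg hg0 ζ hζ hmem
    · rintro a ha r hr ⟨F, hF, hFa⟩
      obtain ⟨C, U, ζ, hζW, hCo, hCc, haC, hCG, hUo, hUr, hCU, hζU, hζC⟩ := hW3 a ha r hr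
      have h1 : AnalyticOnNhd ℂ F C := ((hF.mono (hCU.trans hUr)).analyticOnNhd hCo)
      have h2 : AnalyticOnNhd ℂ (fnOf g) C := ((hfd.mono hCG).analyticOnNhd hCo)
      have h3 : EqOn F (fnOf g) C := h1.eqOn_of_preconnected_of_eventuallyEq h2 hCc haC hFa
      have hζZ : ζ ∈ Z' := Or.inr (Or.inl hζW)
      exact hB4 g hg hg0 ζ hζZ (mem_Yc_of g (hZG' hζZ) hUo hζU hCo hCG hζC (hF.mono hUr) h3)
    · intro ζ hζ
      exact taylor_of (hZG' (Or.inr (Or.inr hζ))) g (hB4 g hg hg0 ζ (Or.inr (Or.inr hζ)))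

end Pool.Agent.Results.MP_2e37b9_an.IndependentBaireSubspaces
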